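import Mathlib
import Pool.Agent.helper68.AM.Spec
import Pool.Agent.helper68.AM.Tree

/-!
Project sl: (AM), module SW: the sandwich.
-/

set_option autoImplicit false

namespace AM

open Pool.Agent.helper72.Sq Finset Real

theorem SW : SW_stmt := by
  intro P hP
  obtain ⟨hc, hcc', hk, ht0⟩ := Par_of_Gr hP
  have hGN0 := GN_rt hP
  set c := min (ltau P.1) (ltau P.2.1) with hcdef
  set c' := max (len P.1) (len P.2.1) with hc'def
  set k := kap P with hkdef
  set t0 := min P.1 P.2.1 with ht0def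
  have hL0 := len_pos ht0
  set cs := sinh (len t0 / 2) / exp (len t0 / 2) with hcs
  have hcs0 : 0 < cs := div_pos (sinh_pos_iff.2 (by linarith)) (exp_pos _)
  have hcs1 : cs * exp (len t0 / 2) ≤ sinh (len t0 / 2) := by
    rw [hcs, div_mul_cancel₀ _ (exp_pos _).ne']
  have hlt := ltau_pos ht0
  have hden : 0 < 1 - exp (-(ltau t0)) := by
    have : exp (-(ltau t0)) < 1 := exp_lt_one_iff.2 (by linarith)
    linarith
  set B := 2 * (k + 4) / cs ^ 3 / (1 - exp (-(ltau t0))) with hB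
  have hB0 : 0 ≤ B := by rw [hB]; positivity
  set D := 2 ^ 13 * (B / c + 1) with hD
  have hD1 : 1 ≤ B / c + 1 := by
    have : 0 ≤ B / c := by positivity
    linarith
  have hD0 : 0 < D := by rw [hD]; positivity
  refine ⟨⌈log D / c⌉₊ + 1, by omega, ?_⟩
  set C0 := ⌈log D / c⌉₊ + 1 with hC0
  intro j hj y hy r hr0 hr
  have hC0' : D ≤ exp (c * C0) := by
    have h1 : log D / c ≤ C0 := by
      have := Nat.le_ceil (log D / c)
      have h2 : ((⌈log D / c⌉₊ + 1 : ℕ) : ℝ) = (⌈log D / c⌉₊ : ℝ) + 1 := by push_cast; ring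
      rw [hC0, h2]
      linarith
    have h2 : log D ≤ c * C0 := by
      rw [div_le_iff₀ hc] at h1
      linarith
    calc D = exp (log D) := (exp_log hD0).symm
      _ ≤ _ := exp_le_exp.2 h2
  have hyGN := GN_lvs (C0 * j) (C0 * j) (rt P) hGN0 y hy
  have hM := lvs_ge (C0 * j) (C0 * j) (rt P) hGN0 (by omega) y hy
  have hN := hyGN.1
  have h1' : (1 : ℝ) ≤ y.m1 := by exact_mod_cast hyGN.m1_pos
  have h2' : (1 : ℝ) ≤ y.m2 := by exact_mod_cast hyGN.m2_pos
  have hl1c : c * y.m1 ≤ y.l1 := hN.lx.trans (ltau_le_len hN.gr.x2.le)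
  have hl2c : c * y.m2 ≤ y.l2 := hN.ly.trans (ltau_le_len hN.gr.y2.le)
  rintro ⟨p, q⟩ ⟨hp, hL⟩
  refine ⟨hp, ?_⟩
  simp only at hL hp ⊢
  have hA := Lam_ge cs k t0 hcs0 ht0 hcs1 y.t p q hp hN.gr hN.tx hN.ty hN.hk
  have hBq := Lam_ge_ltau y.t p q hp hN.gr
  have hlt1 := ltau_pos hN.gr.x2
  have hq : (q : ℝ) * c ≤ r := by
    have e1 : (0 : ℝ) ≤ p * ltau y.t.1 := by positivity
    have e2 : (q : ℝ) * (c * y.m2) ≤ q * ltau y.t.2.1 :=
      mul_le_mul_of_nonneg_left hN.ly (Nat.cast_nonneg q)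
    have e3 : (q : ℝ) * c * 1 ≤ q * c * y.m2 :=
      mul_le_mul_of_nonneg_left h2' (by positivity)
    nlinarith
  have hq2 : (q : ℝ) ≤ 2 ^ (5 * j) / c := by
    rw [le_div_iff₀ hc]; linarith
  have hMr : ((C0 * j : ℕ) : ℝ) ≤ (y.m1 : ℝ) + y.m2 := by exact_mod_cast hM
  have hexp : exp (-(y.l1 + y.l2)) ≤ exp (-(c * C0 * j)) := by
    apply exp_le_exp.2
    push_cast at hMr
    nlinarith
  have hpow : (2 : ℝ) ^ (13 * j) * (B / c + 1) ≤ exp (c * C0 * j) := by
    have h1 : exp (c * C0 * j) = exp (c * C0) ^ j := by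
      rw [← exp_nat_mul]
      congr 1
      ring
    rw [h1]
    calc (2 : ℝ) ^ (13 * j) * (B / c + 1) ≤ (2 : ℝ) ^ (13 * j) * (B / c + 1) ^ j := by
          apply mul_le_mul_of_nonneg_left _ (by positivity)
          exact le_self_pow₀ hD1 (by omega)
      _ = D ^ j := by rw [hD, mul_pow, ← pow_mul]
      _ ≤ _ := pow_le_pow_left₀ hD0.le hC0' j
  have hfin : B * q * exp (-(y.l1 + y.l2)) ≤ 1 / 2 ^ (8 * j) := by
    have h1 : B * q * exp (-(y.l1 + y.l2)) ≤ B * (2 ^ (5 * j) / c) * exp (-(c * C0 * j)) := by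
      apply mul_le_mul _ hexp (exp_pos _).le (by positivity)
      exact mul_le_mul_of_nonneg_left hq2 hB0
    refine h1.trans ?_
    rw [exp_neg, le_div_iff₀ (by positivity)]
    have h2 : B * (2 ^ (5 * j) / c) * (exp (c * C0 * j))⁻¹ * 2 ^ (8 * j) =
        (B / c) * 2 ^ (13 * j) / exp (c * C0 * j) := by
      rw [show 13 * j = 5 * j + 8 * j by ring, pow_add]
      field_simp
    rw [h2, div_le_one (exp_pos _)]
    refine le_trans ?_ hpow
    have : (0 : ℝ) ≤ 2 ^ (13 * j) := by positivity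
    nlinarith
  have hA' : (p : ℝ) * y.l1 + q * y.l2 - B * q * exp (-(y.l1 + y.l2)) ≤ Lam y.t p q := hA
  linarith

end AM

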